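import Mathlib
import Pool.Agent.Run7.h619.PairSets

/-!
# Goldbach's problem for the sums of the elements of two arbitrary sets, or differences of primes

Let `m` be large and `η > 0` fixed. Call `n` good if it is a sum of two primes in at least `m ^ (1 - η)` ways,
and `h` a popular difference if for at least `m ^ (1 - η)` primes `p ≤ 3 m` also `p + |h|` is a prime.

* Part 2. For every `ε > 0` there is a number `C / ε ^ E` with the following property. Let `A` and `B` be
ARBITRARY sets of at least `C / ε ^ E` integers of absolute value at most `m / 20` (for example of size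
`⌈C / ε ^ E⌉`, a constant; there are only conditions modulo `6`). At least one of the following holds:
(a) `m + a + b` is good for at least `(ε ^ 2 / 5) |A| |B|` pairs `(a, b)` in `A × B`;
(b) at least `(1 - ε) |A| ^ 2` of the differences of `A` and at least `(1 / 2 - ε) |B| ^ 2` of the differences of
`B` are popular;
(c) the same with `A` and `B` exchanged.
For example, with `A = {-6, -12, ..., -6 K}` or `A = {-4, -16, ..., -4 ^ K}`, and the same for `B`, and `K ≥ K₀(ε)`.
* Part 1. Let `T > (4 - c) M`, and let `X_1, ..., X_T` be arbitrary large sets of constant terms of forms `n + x` or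
`m + x - n`. For all but `ε |X_1| ... |X_T|` of the choices `x_g` in `X_g`, some `M + 1` of the `T` forms are simultaneously
prime for at least `m ^ (1 - η)` integers `n ≤ 2 m`. (If two of them are of different types, then `m + x_g + x_g'` is good,
otherwise `x_g - x_g'` is a popular difference.)

Proof. The coloured Maynard-Tao theorem with a constant below `4`, uniform in the constant terms (starting
files, `Pool.Agent.TH899.UG.Uni.exactU`), hits `M + 1` of any `T` classes of `K` forms; the box lemma
(`Pool.Agent.TH899.UG.box_pow`) finds `T` classes all of whose transversals are exceptional, if the proportion of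
the exceptional ones is at least `ε`. The residue classes of the constant terms modulo the small primes are
made constant in each of the `T` classes by the pigeonhole principle; so only the primes up to `T` matter.
Part 2 follows from part 1 for `T = 4`, `M = 1` (two sets of constant terms equal to `A` and two equal to `B`; one
equal to `A` and three equal to `B`; three equal to `A` and one equal to `B`) and Goodman's inequality for the number
of triangles of a graph.
-/

set_option autoImplicit false

namespace Pool.Agent.Results.MP_dd84fd_nt.ArbitrarySetsOrDifferences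

open Finset Filter

/-- the number of the ordered pairs of primes with sum `n` -/
def goldbach (n : ℕ) : ℕ :=
  ((antidiagonal n).filter (fun x => x.1.Prime ∧ x.2.Prime)).card

/-- the number of the primes `p ≤ y` such that `p + h` is prime -/
def primePairs (y h : ℕ) : ℕ :=
  ((Icc 1 y).filter (fun p => p.Prime ∧ (p + h).Prime)).card

/-- the form `n + x` (for `k = true`) or `m + x - n` (for `k = false`) -/
def form (k : Bool) (m : ℕ) (x n : ℤ) : ℤ := if k then n + x else m + x - n

/-- the number of the `n ≤ 2 m` for which the forms with the indices in `F` are all prime -/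
def simul {T : ℕ} (k : Fin T → Bool) (m : ℕ) (x : Fin T → ℤ) (F : Finset (Fin T)) : ℕ :=
  ((Icc 1 (2 * m)).filter (fun n : ℕ => ∀ g ∈ F, (form (k g) m (x g) n).toNat.Prime)).card

open Classical in
/-- the pairs `(a, b)` in `A × B` for which `m + a + b` is a sum of two primes in at least `m ^ (1 - η)` ways -/
noncomputable def sums (η : ℝ) (m : ℕ) (A B : Finset ℤ) : Finset (ℤ × ℤ) :=
  (A ×ˢ B).filter (fun x => (m : ℝ) ^ (1 - η) ≤ goldbach (m + x.1 + x.2).toNat)

open Classical in
/-- the pairs `(a, a')` in `A × A` such that `p + |a - a'|` is prime for at least `m ^ (1 - η)` primes `p ≤ 3 m` -/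
noncomputable def diffs (η : ℝ) (m : ℕ) (A : Finset ℤ) : Finset (ℤ × ℤ) :=
  (A ×ˢ A).filter (fun x => (m : ℝ) ^ (1 - η) ≤ primePairs (3 * m) (x.1 - x.2).natAbs)

open Classical in
/-- **Part 1**: almost all choices of the constant terms from arbitrary sets. **Part 2**: Goldbach's problem for
a positive proportion of the pairs of elements of two arbitrary sets, or differences of primes. -/
theorem result :
    (∃ c : ℝ, 0 < c ∧ ∀ T M : ℕ, (4 - c) * M < T → ∃ (C : ℝ) (E : ℕ), 1 ≤ C ∧
      ∀ η : ℝ, 0 < η → ∀ᶠ m : ℕ in atTop,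
      ∀ (ε : ℝ) (k : Fin T → Bool) (X : Fin T → Finset ℤ) (n₀ : ℤ), 0 < ε → ε ≤ 1 →
        (∀ g, C / ε ^ E ≤ (X g).card) → (∀ g, ∀ x ∈ X g, 20 * |x| ≤ m) →
        (∀ g, ∀ x ∈ X g, IsCoprime (form (k g) m x n₀) (T.factorial : ℤ)) →
        (((Fintype.piFinset X).filter (fun x => ¬ ∃ F : Finset (Fin T), M + 1 ≤ F.card ∧
          (m : ℝ) ^ (1 - η) ≤ simul k m x F)).card : ℝ) ≤ ε * ∏ g, ((X g).card : ℝ)) ∧
    (∃ (C : ℝ) (E : ℕ), 1 ≤ C ∧ ∀ η : ℝ, 0 < η → ∀ᶠ m : ℕ in atTop,
      ∀ (ε : ℝ) (A B : Finset ℤ) (n₀ : ℤ), 0 < ε → ε ≤ 1 →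
        C / ε ^ E ≤ A.card → C / ε ^ E ≤ B.card →
        (∀ a ∈ A, 20 * |a| ≤ m) → (∀ b ∈ B, 20 * |b| ≤ m) →
        (∀ a ∈ A, IsCoprime (n₀ + a) 6) → (∀ b ∈ B, IsCoprime (m + b - n₀) 6) →
        ε ^ 2 / 5 * (A.card * B.card : ℝ) ≤ (sums η m A B).card ∨
        ((1 - ε) * (A.card : ℝ) ^ 2 ≤ (diffs η m A).card ∧
          (1 / 2 - ε) * (B.card : ℝ) ^ 2 ≤ (diffs η m B).card) ∨
        ((1 / 2 - ε) * (A.card : ℝ) ^ 2 ≤ (diffs η m A).card ∧
          (1 - ε) * (B.card : ℝ) ^ 2 ≤ (diffs η m B).card)) := by
  constructor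
  · obtain ⟨c, hc, -, H⟩ := Run7.h619.PS.main
    refine ⟨c, hc, fun T M hTM => ?_⟩
    obtain ⟨C, E, hC, H⟩ := H T M hTM
    refine ⟨C, E, hC, fun η hη => ?_⟩
    filter_upwards [H η hη] with m hm
    intro ε k X n₀ hε hε1 h1 h2 h3
    refine le_trans ?_ (hm ε k X n₀ hε hε1 h1 h2 h3)
    rw [Nat.cast_le]
    apply card_le_card
    intro x hx
    obtain ⟨h4, h5⟩ := mem_filter.1 hx
    refine mem_filter.2 ⟨h4, fun F hF => ?_⟩
    by_contra hcon
    exact h5 ⟨F, hF, not_lt.1 hcon⟩
  · exact Run7.h619.PS.alt

end Pool.Agent.Results.MP_dd84fd_nt.ArbitrarySetsOrDifferences
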